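import Pool.Agent.Helper61.QE.St3

/-! # Project QD, part E: the outer domain is mapped into itself -/

open Set Filter Topology Complex Bornology

namespace Pool.Agent.Helper33.QE

open Pool.Agent.Helper61.QE

theorem nsw_cont (φ : ℂ ≃ₜ ℂ) (x0 : ℂ) :
    Continuous fun η : ℂ => (φ (x0 + η⁻¹) - φ x0)⁻¹ := by
  rw [continuous_iff_continuousAt]
  intro η
  by_cases h : η = 0
  · subst h
    rw [continuousAt_iff_punctured_nhds]
    have e : (φ (x0 + (0 : ℂ)⁻¹) - φ x0)⁻¹ = 0 := by simp
    rw [e]
    have h1 : Tendsto (fun η : ℂ => x0 + η⁻¹) (𝓝[≠] 0) (cobounded ℂ) :=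
      (tendsto_const_add_cobounded x0).comp tendsto_inv₀_nhdsNE_zero
    have h2 : Tendsto φ (cobounded ℂ) (cobounded ℂ) := by
      rw [Metric.cobounded_eq_cocompact]
      exact φ.isClosedEmbedding.tendsto_cocompact
    have h3 : Tendsto (fun η : ℂ => φ (x0 + η⁻¹) - φ x0) (𝓝[≠] 0) (cobounded ℂ) :=
      (tendsto_sub_const_cobounded (φ x0)).comp (h2.comp h1)
    exact tendsto_inv₀_cobounded.comp h3
  · have hne : φ (x0 + η⁻¹) - φ x0 ≠ 0 := by
      intro h0
      have h1 := φ.injective (sub_eq_zero.1 h0)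
      have h2 : η⁻¹ = 0 := by linear_combination h1
      exact h (inv_eq_zero.1 h2)
    have hc : ContinuousAt (fun η : ℂ => φ (x0 + η⁻¹) - φ x0) η := by
      refine ContinuousAt.sub ?_ continuousAt_const
      exact (φ.continuous.continuousAt).comp
        (f := fun η : ℂ => x0 + η⁻¹) (continuousAt_const.add (continuousAt_inv₀ h))
    exact hc.inv₀ hne

theorem pNSW : StNSW := by
  intro P φ x0 A1 A2 S hP hinj hP0 hne hA2 hS hfr hA1 u hu
  set g : ℂ → ℂ := fun u => P u / (1 - x0 * P u) with hg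
  set V : Set ℂ := g '' D with hV
  set W : ℂ → ℂ := fun η => A1 + A2 * (φ (x0 + η⁻¹) - φ x0)⁻¹ with hW
  have hD : IsOpen D := Metric.isOpen_ball
  have hDc : IsPreconnected D := (convex_ball (0 : ℂ) 1).isPreconnected
  have hden : ∀ u ∈ D, 1 - x0 * P u ≠ 0 := fun u hu h => hne u hu (sub_eq_zero.1 h).symm
  have hgd : DifferentiableOn ℂ g D :=
    hP.div ((differentiableOn_const 1).sub ((differentiableOn_const x0).mul hP)) hden
  have hginj : InjOn g D := by
    intro a ha b hb hab
    apply hinj ha hb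
    have h1 := hden a ha
    have h2 := hden b hb
    have h3 : P a / (1 - x0 * P a) = P b / (1 - x0 * P b) := hab
    rw [div_eq_div_iff h1 h2] at h3
    linear_combination h3
  have h0D : (0 : ℂ) ∈ D := Metric.mem_ball_self one_pos
  have hVo : IsOpen V := by
    rcases (hgd.analyticOnNhd hD).is_constant_or_isOpen hDc with ⟨w, hw⟩ | h
    · exfalso
      have h1 : (1 / 2 : ℂ) ∈ D := by
        rw [mem_ball_zero_iff]; norm_num
      have h2 := hginj h0D h1 ((hw _ h0D).trans (hw _ h1).symm)
      norm_num at h2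
    · exact h D le_rfl hD
  have hVc : IsPreconnected V := hDc.image g hgd.continuousOn
  have hWc : Continuous W := continuous_const.add (continuous_const.mul (nsw_cont φ x0))
  have hWinj : Function.Injective W := by
    intro a b hab
    have h1 : A2 * (φ (x0 + a⁻¹) - φ x0)⁻¹ = A2 * (φ (x0 + b⁻¹) - φ x0)⁻¹ :=
      add_left_cancel hab
    have h2 := inv_injective (mul_left_cancel₀ hA2 h1)
    have h3 := φ.injective (sub_left_injective h2)
    exact inv_injective (add_left_cancel h3)
  have h0V : (0 : ℂ) ∈ V := ⟨0, h0D, by simp [hg, hP0]⟩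
  have hW0 : W 0 = A1 := by simp [hW]
  have hdisj : ∀ η ∈ V, W η ∉ frontier V := by
    intro η hη hfro
    obtain ⟨hz, hx⟩ := hfr _ hfro
    have hx0 : x0 + (W η)⁻¹ ≠ x0 := by
      intro h
      have : (W η)⁻¹ = 0 := by linear_combination h
      exact hz (inv_eq_zero.1 this)
    have h1 := hS _ hx hx0
    have h2 : (x0 + (W η)⁻¹ - x0)⁻¹ = W η := by rw [add_sub_cancel_left, inv_inv]
    rw [h2] at h1
    have h3 : W η = W (W η) := h1
    have h4 : η = W η := hWinj h3
    rw [← h4] at hfro
    have h5 := hVo.inter_frontier_eq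
    have h6 : η ∈ V ∩ frontier V := ⟨hη, hfro⟩
    rw [h5] at h6
    exact h6
  have hsub : W '' V ⊆ V := by
    refine IsPreconnected.subset_left_of_subset_union hVo isClosed_closure.isOpen_compl
      (disjoint_left.2 fun a ha hb => hb (subset_closure ha)) ?_ ?_
      (hVc.image W hWc.continuousOn)
    · rintro _ ⟨η, hη, rfl⟩
      by_cases h : W η ∈ closure V
      · left
        by_contra h'
        refine hdisj η hη ?_
        rw [hVo.frontier_eq]
        exact ⟨h, h'⟩
      · right; exact h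
    · exact ⟨A1, ⟨0, h0V, hW0⟩, hA1⟩
  exact hsub ⟨g u, ⟨u, hu, rfl⟩, rfl⟩

end Pool.Agent.Helper33.QE
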